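import Pool.Agent.H19PW.C

/-!
# Points on complete intersections of small `p`-weight over global fields of characteristic `p`

Lang's theorem gives a nontrivial common zero of forms of degrees `d_1, …, d_r` in more than
`∑ d_j ^ 2` variables over a global field of characteristic `p`.  Here one factor `d_j` of each term
is replaced by the `p`-weight `w_j ≤ d_j` of the form: the greatest sum of the base `p` digits
of all exponents of a monomial.  The hypersurfaces `∑ a_ij x_i ^ q x_j = 0`, with `q` a power of `p`,
have `p`-weight `2`.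
-/

set_option autoImplicit false

namespace Pool.Agent.Results.MP_d4938b_nt.SmallWeight

/-- Let `K` be an algebraic extension of `𝔽_p(t)`, for instance a global field of characteristic `p`,
and let `f_1, …, f_r` be polynomials in `x_1, …, x_n` over `K` without constant term.  Let `a_i` be
natural numbers such that for all monomials `x ^ m` of `f_j` the sum of the `a_i m_i` is at most
`d_j` and the sum of the base `p` digits of all exponents `m_i` is at most `w_j`.  If the sum of
the `w_j d_j` is less than the sum of the `a_i`, then the `f_j` have a common zero `x ≠ 0` in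
`K ^ n`. -/
theorem result (p : ℕ) [Fact p.Prime] (K : Type*) [Field K] [Algebra (RatFunc (ZMod p)) K]
    [Algebra.IsAlgebraic (RatFunc (ZMod p)) K] (n r : ℕ) (f : Fin r → MvPolynomial (Fin n) K)
    (a : Fin n → ℕ) (d w : Fin r → ℕ) (h0 : ∀ j, MvPolynomial.coeff 0 (f j) = 0)
    (hd : ∀ j, ∀ m ∈ (f j).support, ∑ i, a i * m i ≤ d j)
    (hw : ∀ j, ∀ m ∈ (f j).support, ∑ i, (Nat.digits p (m i)).sum ≤ w j)
    (hlt : ∑ j, w j * d j < ∑ i, a i) :
    ∃ x : Fin n → K, x ≠ 0 ∧ ∀ j, MvPolynomial.eval x (f j) = 0 := by
  letI : Algebra (Polynomial (ZMod p)) K :=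
    ((algebraMap (RatFunc (ZMod p)) K).comp
      (algebraMap (Polynomial (ZMod p)) (RatFunc (ZMod p)))).toAlgebra
  letI : Algebra (ZMod p) K :=
    ((algebraMap (Polynomial (ZMod p)) K).comp
      (algebraMap (ZMod p) (Polynomial (ZMod p)))).toAlgebra
  haveI : IsScalarTower (ZMod p) (Polynomial (ZMod p)) K := IsScalarTower.of_algebraMap_eq' rfl
  haveI : IsScalarTower (Polynomial (ZMod p)) (RatFunc (ZMod p)) K :=
    IsScalarTower.of_algebraMap_eq' rfl
  have hinj : Function.Injective (algebraMap (Polynomial (ZMod p)) K) :=
    (algebraMap (RatFunc (ZMod p)) K).injective.comp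
      (IsFractionRing.injective (Polynomial (ZMod p)) (RatFunc (ZMod p)))
  haveI : Algebra.IsAlgebraic (Polynomial (ZMod p)) K :=
    (IsFractionRing.comap_isAlgebraic_iff (A := Polynomial (ZMod p))
      (K := RatFunc (ZMod p)) (C := K)).2 inferInstance
  refine H19PW.main hinj f a d w h0 hd (fun j m hm => ?_) hlt
  refine le_trans ?_ (hw j m hm)
  exact Finset.sum_le_sum_of_subset (Finset.subset_univ _)

end Pool.Agent.Results.MP_d4938b_nt.SmallWeight
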